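import Pool.Agent.U243.ACFExists

/-!
# Rank 2 bundles on `ℙ⁴`: the complex numbers and finite fields

The case `c₁ = 0`, `c₂ = 11` of Q1 is searched for by computer over finite fields. Here: for all `c₁`, `c₂` a stable rank 2 bundle on
`ℙ⁴` with these Chern classes which is not of Horrocks-Mumford type exists over `ℂ` if and only if it exists over the algebraic closure
of the field with `p` elements for infinitely many primes `p`, and then it exists for all large `p`. The same for indecomposable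
bundles if their regularity is bounded.

`BundleTheory` collects the known facts used.

* An `n`-regular rank 2 bundle `E` with Chern classes `c₁`, `c₂` is the cokernel of a matrix of linear forms
  `O(-n-1)^s → O(-n)^t`, whose size is determined by `c₁`, `c₂`, `n` (`r c₁ c₂ n` is the number of the coefficients). That a matrix
  presents such a bundle, and the properties to be a sum of two line bundles, stable, or of Horrocks-Mumford type are first-order
  conditions on the coefficients over algebraically closed fields (`bun_fo`, `dec_fo`, `stab_fo`, `hm_fo`): the degree `d` of `f` and the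
  twist `k` in `f^* F ⊗ O(k)` are determined by `4 c₂ - c₁² = 15 d²` and `c₁ = 5 d + 2 k`, and the monad of `F` is defined over `ℤ`.
* `langer` (Langer 2004): the stable bundles with given Chern classes over all algebraically closed fields of all characteristics are
  `n`-regular with one `n`.
* `ind_iff`: every bundle is `n`-regular for some `n` (Serre, Castelnuovo, Mumford).
-/

set_option autoImplicit false

namespace Pool.Agent.Results.MP_745d3a_ag.FiniteFields

open Pool.Agent.U243.ACF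

/-- Rank 2 bundles on `ℙ⁴` over algebraically closed fields, with the known facts that are used. -/
structure BundleTheory where
  /-- the number of the coefficients of a presentation -/
  r : ℤ → ℤ → ℕ → ℕ
  /-- `Bun c₁ c₂ n K a`: `a` presents an `n`-regular rank 2 bundle `E_a` on `ℙ⁴` over `K` with Chern classes `c₁`, `c₂` -/
  Bun : ∀ (c₁ c₂ : ℤ) (n : ℕ) (K : Type) [Field K], (Fin (r c₁ c₂ n) → K) → Prop
  /-- `E_a` is a sum of two line bundles -/
  Dec : ∀ (c₁ c₂ : ℤ) (n : ℕ) (K : Type) [Field K], (Fin (r c₁ c₂ n) → K) → Prop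
  /-- `E_a` is stable -/
  Stab : ∀ (c₁ c₂ : ℤ) (n : ℕ) (K : Type) [Field K], (Fin (r c₁ c₂ n) → K) → Prop
  /-- `E_a` is of Horrocks-Mumford type -/
  HM : ∀ (c₁ c₂ : ℤ) (n : ℕ) (K : Type) [Field K], (Fin (r c₁ c₂ n) → K) → Prop
  /-- there is a stable rank 2 bundle on `ℙ⁴` over `K` with Chern classes `c₁`, `c₂` which is not of Horrocks-Mumford type -/
  StabEx : ∀ (_c₁ _c₂ : ℤ) (K : Type) [Field K], Prop
  /-- there is an indecomposable complex rank 2 bundle on `ℙ⁴` which is not of Horrocks-Mumford type -/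
  IndEx : Prop
  bun_fo : ∀ c₁ c₂ n, FO1 (Bun c₁ c₂ n)
  dec_fo : ∀ c₁ c₂ n, FO1 (Dec c₁ c₂ n)
  stab_fo : ∀ c₁ c₂ n, FO1 (Stab c₁ c₂ n)
  hm_fo : ∀ c₁ c₂ n, FO1 (HM c₁ c₂ n)
  langer : ∀ c₁ c₂, ∃ n, ∀ (K : Type) [Field K], IsAlgClosed K →
    (StabEx c₁ c₂ K ↔ ∃ a, (Bun c₁ c₂ n K a ∧ Stab c₁ c₂ n K a) ∧ ¬ HM c₁ c₂ n K a)
  ind_iff : IndEx ↔ ∃ c₁ c₂ n, ∃ a : Fin (r c₁ c₂ n) → ℂ, (Bun c₁ c₂ n ℂ a ∧ ¬ Dec c₁ c₂ n ℂ a) ∧ ¬ HM c₁ c₂ n ℂ a

variable (S : BundleTheory)

/-- over `K` there is an `n`-regular indecomposable rank 2 bundle on `ℙ⁴` with Chern classes `c₁`, `c₂`, not of Horrocks-Mumford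
type -/
def RegEx (c₁ c₂ : ℤ) (n : ℕ) (K : Type) [Field K] : Prop :=
  ∃ a : Fin (S.r c₁ c₂ n) → K, (S.Bun c₁ c₂ n K a ∧ ¬ S.Dec c₁ c₂ n K a) ∧ ¬ S.HM c₁ c₂ n K a

/-- First part: for all `c₁`, `c₂` it is the same whether a stable rank 2 bundle on `ℙ⁴` with Chern classes `c₁`, `c₂`, not of
Horrocks-Mumford type, exists over `ℂ`, over the algebraic closure of `ℚ`, over all algebraically closed fields of characteristic
`p` for all large `p`, or over some such field for infinitely many `p`. Second part: Q1 is equivalent to: for some `c₁`, `c₂`, `n`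
there are, for infinitely many `p` (or for all large `p`), indecomposable `n`-regular rank 2 bundles on `ℙ⁴` with Chern classes
`c₁`, `c₂`, not of Horrocks-Mumford type, over an algebraically closed field of characteristic `p`. -/
theorem result :
    (∀ c₁ c₂ : ℤ, List.TFAE [
      S.StabEx c₁ c₂ ℂ,
      S.StabEx c₁ c₂ (AlgebraicClosure ℚ),
      ∃ B, ∀ p, B < p → p.Prime → ∀ (K : Type) [Field K], IsAlgClosed K → CharP K p → S.StabEx c₁ c₂ K,
      ∀ B, ∃ p, B < p ∧ p.Prime ∧ ∃ (K : Type) (_ : Field K), IsAlgClosed K ∧ CharP K p ∧ S.StabEx c₁ c₂ K]) ∧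
    List.TFAE [
      S.IndEx,
      ∃ c₁ c₂ n, RegEx S c₁ c₂ n (AlgebraicClosure ℚ),
      ∃ c₁ c₂ n B, ∀ p, B < p → p.Prime → ∀ (K : Type) [Field K], IsAlgClosed K → CharP K p → RegEx S c₁ c₂ n K,
      ∃ c₁ c₂ n, ∀ B, ∃ p, B < p ∧ p.Prime ∧ ∃ (K : Type) (_ : Field K), IsAlgClosed K ∧ CharP K p ∧
        RegEx S c₁ c₂ n K] := by
  refine ⟨fun c₁ c₂ => ?_, ?_⟩
  · obtain ⟨n, hn⟩ := S.langer c₁ c₂
    have e := ex_tfae (((S.bun_fo c₁ c₂ n).and (S.stab_fo c₁ c₂ n)).and (S.hm_fo c₁ c₂ n).neg)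
    have e01 := e.out 0 1
    have e02 := e.out 0 2
    have e03 := e.out 0 3
    tfae_have 1 ↔ 2 := by rw [hn ℂ inferInstance, hn (AlgebraicClosure ℚ) inferInstance]; exact e01
    tfae_have 1 ↔ 3 := by
      rw [hn ℂ inferInstance, e02]
      constructor
      · rintro ⟨B, h⟩
        exact ⟨B, fun p hp hpp K _ hK hc => (hn K hK).2 (h p hp hpp K hK hc)⟩
      · rintro ⟨B, h⟩
        exact ⟨B, fun p hp hpp K _ hK hc => (hn K hK).1 (h p hp hpp K hK hc)⟩
    tfae_have 1 ↔ 4 := by
      rw [hn ℂ inferInstance, e03]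
      constructor
      · intro h B
        obtain ⟨p, hp, hpp, K, _, hK, hc, h1⟩ := h B
        exact ⟨p, hp, hpp, K, _, hK, hc, (hn K hK).2 h1⟩
      · intro h B
        obtain ⟨p, hp, hpp, K, _, hK, hc, h1⟩ := h B
        exact ⟨p, hp, hpp, K, _, hK, hc, (hn K hK).1 h1⟩
    tfae_finish
  · have e := fun c₁ c₂ n =>
      ex_tfae (((S.bun_fo c₁ c₂ n).and (S.dec_fo c₁ c₂ n).neg).and (S.hm_fo c₁ c₂ n).neg)
    have e01 := fun c₁ c₂ n => (e c₁ c₂ n).out 0 1
    have e02 := fun c₁ c₂ n => (e c₁ c₂ n).out 0 2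
    have e03 := fun c₁ c₂ n => (e c₁ c₂ n).out 0 3
    tfae_have 1 ↔ 2 := by
      rw [S.ind_iff]
      exact exists_congr fun c₁ => exists_congr fun c₂ => exists_congr fun n => e01 c₁ c₂ n
    tfae_have 1 ↔ 3 := by
      rw [S.ind_iff]
      exact exists_congr fun c₁ => exists_congr fun c₂ => exists_congr fun n => e02 c₁ c₂ n
    tfae_have 1 ↔ 4 := by
      rw [S.ind_iff]
      exact exists_congr fun c₁ => exists_congr fun c₂ => exists_congr fun n => e03 c₁ c₂ n
    tfae_finish

end Pool.Agent.Results.MP_745d3a_ag.FiniteFields
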